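import Pool.Agent.H93.RZ.Exc
import Pool.Agent.H87.QP.Targets2

/-!
RZF: the deterministic end (MP_c59857_nt, lower bound for the smallest eigenvalue of the local
correlation matrices). A window on which, for the primes `q` of an octave in the mean, there is a
linear relation between the shifts by the multiples of `q`, is near to sums of boundedly many
exponentials on its short subwindows.
-/

set_option autoImplicit false

namespace Pool.Agent.H93.RZ

open Finset Pool.Agent.H6.N4D Pool.Agent.H93.DE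

lemma sum_val (N : ℕ) [NeZero N] {A : Type} [AddCommMonoid A] (G : ℕ → A) :
    ∑ x : ZMod N, G x.val = ∑ j ∈ range N, G j := by
  obtain ⟨k, rfl⟩ : ∃ k, N = k + 1 := ⟨N - 1, by have := NeZero.pos N; omega⟩
  exact Fin.sum_univ_eq_sum_range G (k + 1)

lemma enum {α : Type} (E : Finset α) (R : ℕ) (hR : E.card ≤ R) (a0 : α) :
    ∃ (φ : ℕ → α) (u : ℕ → Prop) (_ : DecidablePred u), ∀ F : α → ℂ,
      ∑ ξ ∈ E, F ξ = ∑ r ∈ range R, if u r then F (φ r) else 0 := by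
  classical
  refine ⟨fun r => if h : r < E.card then (E.equivFin.symm ⟨r, h⟩ : α) else a0,
    fun r => r < E.card, inferInstance, fun F => ?_⟩
  rw [← sum_filter]
  have h1 : (range R).filter (fun r => r < E.card) = range E.card := by
    ext r
    simp only [mem_filter, mem_range]
    omega
  rw [h1, ← Fin.sum_univ_eq_sum_range (fun r => F (if h : r < E.card then
    (E.equivFin.symm ⟨r, h⟩ : α) else a0)) E.card]
  have h2 : ∀ i : Fin E.card, F (if h : (i : ℕ) < E.card then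
      (E.equivFin.symm ⟨(i : ℕ), h⟩ : α) else a0) = F (E.equivFin.symm i) := by
    intro i
    rw [dif_pos i.2]
  rw [sum_congr rfl (fun i _ => h2 i)]
  rw [Equiv.sum_comp E.equivFin.symm (fun x : E => F x)]
  exact (sum_coe_sort E F).symm

/-- shifting a window -/
lemma shift_le (G : ℕ → ℝ) (K : ℝ) (h0 : ∀ n, 0 ≤ G n) (hK : ∀ n, G n ≤ K) (T a : ℕ) :
    ∑ t ∈ range T, G (a + t) ≤ ∑ t ∈ range T, G t + a * K := by
  have h1 : ∑ t ∈ range (a + T), G t = ∑ t ∈ range a, G t + ∑ t ∈ range T, G (a + t) :=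
    sum_range_add G a T
  have h2 : ∑ t ∈ range (T + a), G t = ∑ t ∈ range T, G t + ∑ t ∈ range a, G (T + t) :=
    sum_range_add G T a
  have h3 : 0 ≤ ∑ t ∈ range a, G t := sum_nonneg fun _ _ => h0 _
  have h4 : ∑ t ∈ range a, G (T + t) ≤ a * K := by
    calc _ ≤ ∑ t ∈ range a, K := sum_le_sum fun _ _ => hK _
      _ = _ := by simp
  rw [add_comm a T] at h1
  linarith

/-- one block, as a cyclic group -/
theorem block (M : ℕ) [NeZero M] (H : ℕ) (S : Finset ℕ) (g : ZMod M → ℂ) (c : ℕ → ℕ → ℂ)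
    (s : ℝ) (hs : 0 ≤ s) (hs1 : 8 * ((H : ℝ) + 1) ^ 2 * s ≤ 1)
    (hc : ∀ q, 1 ≤ ∑ h ∈ range (H + 1), ‖c q h‖ ^ 2) (hS : 0 < S.card) (E : Finset (ZMod M))
    (hE : ∀ ξ, ξ.val ∈ EA M S c s H → ξ ∈ E) :
    (∑ x : ZMod M, ‖g x - ∑ ξ ∈ E, gh g ξ * ZMod.stdAddChar (ξ * x)‖ ^ 2) / M ≤
      2 * ((∑ q ∈ S, (∑ x : ZMod M,
        ‖∑ h ∈ range (H + 1), c q h * g (x + ((q * h : ℕ) : ZMod M))‖ ^ 2) / M) / S.card) := by
  have hS0 : (0 : ℝ) < S.card := by exact_mod_cast hS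
  rw [pars_part, sum_congr rfl (fun q _ => pars_filter g H (c q) q), sum_comm,
    ← mul_div_assoc, le_div_iff₀ hS0, sum_mul]
  rw [mul_sum]
  have h1 : ∀ ξ ∈ Eᶜ, ‖gh g ξ‖ ^ 2 * S.card ≤ 2 * ∑ q ∈ S, ‖gh g ξ‖ ^ 2 *
      ‖∑ h ∈ range (H + 1), c q h * ZMod.stdAddChar (ξ * ((q * h : ℕ) : ZMod M))‖ ^ 2 := by
    intro ξ hξ
    have h2 : ξ.val ∉ EA M S c s H := fun h => mem_compl.1 hξ (hE ξ h)
    have h3 := off S c s hs H ξ hc h2
    have h4 : (S.card : ℝ) ≤ 2 * ∑ q ∈ S,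
        ‖∑ h ∈ range (H + 1), c q h * ZMod.stdAddChar (ξ * ((q * h : ℕ) : ZMod M))‖ ^ 2 := by
      have h5 : (1 / 2 : ℝ) * S.card ≤ (1 - 4 * ((H : ℝ) + 1) ^ 2 * s) * S.card :=
        mul_le_mul_of_nonneg_right (by linarith) hS0.le
      linarith
    rw [← mul_sum]
    calc ‖gh g ξ‖ ^ 2 * S.card ≤ ‖gh g ξ‖ ^ 2 * (2 * ∑ q ∈ S,
        ‖∑ h ∈ range (H + 1), c q h * ZMod.stdAddChar (ξ * ((q * h : ℕ) : ZMod M))‖ ^ 2) :=
          mul_le_mul_of_nonneg_left h4 (by positivity)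
      _ = _ := by ring
  refine (sum_le_sum h1).trans ?_
  exact sum_le_sum_of_subset_of_nonneg (subset_univ _) (fun ξ _ _ => by positivity)

/-- from the cyclic group to the integers -/
lemma cyc_le (M : ℕ) [NeZero M] (H A : ℕ) (f : ℕ → ℂ) (s : ℕ) (v : ℕ → ℂ) (q : ℕ)
    (hf : ∀ n, ‖f n‖ ≤ 1) (hv : ∑ h ∈ range (H + 1), ‖v h‖ ^ 2 = 1) (hq : q * H ≤ A) :
    (∑ x : ZMod M, ‖∑ h ∈ range (H + 1),
        v h * f (s + (x + ((q * h : ℕ) : ZMod M)).val)‖ ^ 2) / M ≤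
      (∑ x ∈ range M, ‖∑ h ∈ range (H + 1), v h * f (s + x + q * h)‖ ^ 2) / M +
        ((H : ℝ) + 1) * A / M := by
  have hM : (0 : ℝ) < M := by exact_mod_cast NeZero.pos M
  have hb : ∀ F : ℕ → ℂ, (∀ h, ‖F h‖ ≤ 1) → ‖∑ h ∈ range (H + 1), v h * F h‖ ^ 2 ≤ (H : ℝ) + 1 := by
    intro F hF
    have h1 : ‖∑ h ∈ range (H + 1), v h * F h‖ ≤ ∑ h ∈ range (H + 1), ‖v h‖ * 1 := by
      refine (norm_sum_le _ _).trans (sum_le_sum fun h _ => ?_)
      rw [norm_mul]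
      exact mul_le_mul_of_nonneg_left (hF h) (norm_nonneg _)
    have h2 : (∑ h ∈ range (H + 1), ‖v h‖ * 1) ^ 2 ≤
        (∑ h ∈ range (H + 1), ‖v h‖ ^ 2) * ∑ h ∈ range (H + 1), (1 : ℝ) ^ 2 :=
      sum_mul_sq_le_sq_mul_sq _ _ _
    rw [hv, one_mul] at h2
    calc _ ≤ (∑ h ∈ range (H + 1), ‖v h‖ * 1) ^ 2 := pow_le_pow_left₀ (norm_nonneg _) h1 2
      _ ≤ _ := h2
      _ = _ := by simp
  rw [← add_div]
  apply div_le_div_of_nonneg_right _ hM.le
  have h1 : ∀ x : ZMod M, ‖∑ h ∈ range (H + 1),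
        v h * f (s + (x + ((q * h : ℕ) : ZMod M)).val)‖ ^ 2 ≤
      ‖∑ h ∈ range (H + 1), v h * f (s + x.val + q * h)‖ ^ 2 +
        if M ≤ x.val + A then (H : ℝ) + 1 else 0 := by
    intro x
    by_cases hx : M ≤ x.val + A
    · rw [if_pos hx]
      have := hb (fun h => f (s + (x + ((q * h : ℕ) : ZMod M)).val)) (fun h => hf _)
      have h0 : 0 ≤ ‖∑ h ∈ range (H + 1), v h * f (s + x.val + q * h)‖ ^ 2 := by positivity
      linarith
    · rw [if_neg hx, add_zero]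
      apply le_of_eq
      congr 2
      apply sum_congr rfl
      intro h hh
      have h2 : q * h ≤ A := le_trans (Nat.mul_le_mul_left q (by
        have := mem_range.1 hh; omega)) hq
      have h3 : (((q * h : ℕ) : ZMod M)).val = q * h := ZMod.val_cast_of_lt (by omega)
      have h4 : (x + ((q * h : ℕ) : ZMod M)).val = x.val + q * h := by
        rw [ZMod.val_add_of_lt (by rw [h3]; omega), h3]
      rw [h4]
      congr 2
      omega
  refine (sum_le_sum fun x _ => h1 x).trans ?_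
  rw [sum_add_distrib, sum_val M (fun x => ‖∑ h ∈ range (H + 1), v h * f (s + x + q * h)‖ ^ 2)]
  rw [sum_val M (fun x => if M ≤ x + A then (H : ℝ) + 1 else 0)]
  have h5 : ∑ x ∈ range M, (if M ≤ x + A then (H : ℝ) + 1 else 0) ≤ ((H : ℝ) + 1) * A := by
    rw [← sum_filter, sum_const, nsmul_eq_mul, mul_comm]
    apply mul_le_mul_of_nonneg_left _ (by positivity)
    have : ((range M).filter (fun x => M ≤ x + A)).card ≤ A := by
      have h6 : (range M).filter (fun x => M ≤ x + A) ⊆ Ico (M - A) M := by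
        intro x hx
        rw [mem_filter, mem_range] at hx
        rw [mem_Ico]
        omega
      refine (card_le_card h6).trans ?_
      rw [Nat.card_Ico]
      omega
    exact_mod_cast this
  linarith

/-- the normalised filters -/
lemma normalise (H : ℕ) (c : ℕ → ℂ) (hc : 1 ≤ ∑ h ∈ range (H + 1), ‖c h‖ ^ 2) :
    ∃ v : ℕ → ℂ, (∀ h, ‖v h‖ ≤ 1) ∧ ∑ h ∈ range (H + 1), ‖v h‖ ^ 2 = 1 ∧
      ∀ F : ℕ → ℂ, ‖∑ h ∈ range (H + 1), v h * F h‖ ^ 2 ≤
        ‖∑ h ∈ range (H + 1), c h * F h‖ ^ 2 := by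
  set N := ∑ h ∈ range (H + 1), ‖c h‖ ^ 2 with hN
  have hN0 : 0 < N := lt_of_lt_of_le one_pos hc
  have hs : 0 < Real.sqrt N := Real.sqrt_pos.2 hN0
  have hs2 : Real.sqrt N ^ 2 = N := Real.sq_sqrt hN0.le
  have hn : ∀ z : ℂ, ‖z / (Real.sqrt N : ℂ)‖ ^ 2 = ‖z‖ ^ 2 / N := by
    intro z
    rw [norm_div, Complex.norm_real, Real.norm_of_nonneg hs.le, div_pow, hs2]
  have hsum : ∀ G : ℕ → ℂ, ∑ h ∈ range (H + 1), (if h ≤ H then c h / (Real.sqrt N : ℂ) else 0) * G h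
      = (∑ h ∈ range (H + 1), c h * G h) / (Real.sqrt N : ℂ) := by
    intro G
    rw [sum_div]
    apply sum_congr rfl
    intro h hh
    rw [if_pos (by have := mem_range.1 hh; omega)]
    ring
  refine ⟨fun h => if h ≤ H then c h / (Real.sqrt N : ℂ) else 0, ?_, ?_, ?_⟩
  · intro h
    dsimp only
    split_ifs with h1
    · have h2 : ‖c h / (Real.sqrt N : ℂ)‖ ^ 2 ≤ 1 := by
        rw [hn, div_le_one hN0, hN]
        exact single_le_sum (f := fun h => ‖c h‖ ^ 2) (fun _ _ => by positivity)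
          (mem_range.2 (by omega))
      exact le_of_sq_le_sq (by rw [one_pow]; exact h2) zero_le_one
    · simp
  · have : ∀ h ∈ range (H + 1), ‖(if h ≤ H then c h / (Real.sqrt N : ℂ) else 0)‖ ^ 2 =
        ‖c h‖ ^ 2 / N := by
      intro h hh
      rw [if_pos (by have := mem_range.1 hh; omega), hn]
    rw [sum_congr rfl this, ← sum_div, ← hN, div_self hN0.ne']
  · intro F
    rw [hsum F, hn, div_le_iff₀ hN0]
    have h0 : 0 ≤ ‖∑ h ∈ range (H + 1), c h * F h‖ ^ 2 := by positivity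
    nlinarith

lemma chi_exp (M : ℕ) [NeZero M] (ξ x : ZMod M) : (ZMod.stdAddChar (ξ * x) : ℂ) =
    Complex.exp (-(2 * Real.pi * Complex.I * ((ξ.val : ℝ) / M : ℝ))) *
      Complex.exp (2 * Real.pi * Complex.I * (((ξ.val : ℝ) / M : ℝ) * ((x.val + 1 : ℕ) : ℂ))) := by
  have h1 : ξ * x = ((((ξ.val * x.val : ℕ) : ℤ)) : ZMod M) := by
    push_cast
    rw [ZMod.natCast_zmod_val, ZMod.natCast_zmod_val]
  rw [h1, ZMod.stdAddChar_coe, ← Complex.exp_add]
  congr 1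
  push_cast
  ring

lemma sum_Icc_zmod (M : ℕ) [NeZero M] (G : ℕ → ℝ) :
    ∑ h ∈ Icc 1 M, G h = ∑ x : ZMod M, G (x.val + 1) := by
  rw [sum_val M (fun j => G (j + 1)), range_eq_Ico, sum_Ico_add' G 0 M 1]
  apply sum_congr _ (fun _ _ => rfl)
  ext x
  simp only [mem_Icc, mem_Ico]
  omega

/-- one window start: the block as a cyclic group, the waves enumerated -/
theorem start (M : ℕ) [NeZero M] (H A R : ℕ) (S : Finset ℕ) (f : ℕ → ℂ) (s : ℕ) (v : ℕ → ℕ → ℂ)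
    (σ : ℝ) (hσ : 0 ≤ σ) (hσ1 : 8 * ((H : ℝ) + 1) ^ 2 * σ ≤ 1) (hf : ∀ n, ‖f n‖ ≤ 1)
    (hv : ∀ q, ∑ h ∈ range (H + 1), ‖v q h‖ ^ 2 = 1) (hS : 0 < S.card)
    (hq : ∀ q ∈ S, q * H ≤ A) (hR : (EA M S v σ H).card ≤ R) :
    ∃ (b : ℕ → ℂ) (β : ℕ → ℝ), (∀ r, ‖b r‖ ≤ 1) ∧
      (∑ h ∈ Icc 1 M, ‖f (s + h) - ∑ r ∈ range R,
        b r * Complex.exp (2 * Real.pi * Complex.I * (β r * h))‖ ^ 2) / (M : ℝ) ≤
      2 * ((∑ q ∈ S, (∑ x ∈ range M,
        ‖∑ h ∈ range (H + 1), v q h * f (s + 1 + x + q * h)‖ ^ 2) / M) / S.card) +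
        2 * (((H : ℝ) + 1) * A / M) := by
  classical
  have hS0 : (0 : ℝ) < S.card := by exact_mod_cast hS
  set E : Finset (ZMod M) := univ.filter (fun ξ => ξ.val ∈ EA M S v σ H) with hE
  have hEc : E.card ≤ R := by
    refine le_trans ?_ hR
    refine card_le_card_of_injOn (fun ξ => ξ.val) (fun ξ hξ => ?_)
      (fun a _ b _ h => ZMod.val_injective M h)
    rw [hE] at hξ
    simpa using hξ
  obtain ⟨φ, u, hu, henum⟩ := enum E R hEc (0 : ZMod M)
  set g : ZMod M → ℂ := fun x => f (s + 1 + x.val) with hg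
  have hg1 : ∀ x, ‖g x‖ ≤ 1 := fun x => hf _
  refine ⟨fun r => if u r then gh g (φ r) *
    Complex.exp (-(2 * Real.pi * Complex.I * (((φ r).val : ℝ) / M : ℝ))) else 0,
    fun r => ((φ r).val : ℝ) / M, ?_, ?_⟩
  · intro r
    dsimp only
    split_ifs with h1
    · rw [norm_mul]
      have h2 : ‖Complex.exp (-(2 * Real.pi * Complex.I * (((φ r).val : ℝ) / M : ℝ)))‖ = 1 := by
        rw [Complex.norm_exp]
        simp
      rw [h2, mul_one]
      exact norm_gh_le g hg1 _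
    · simp
  · have h1 := block M H S g v σ hσ hσ1 (fun q => (hv q).ge) hS E (fun ξ hξ => by
      rw [hE, mem_filter]
      exact ⟨mem_univ _, hξ⟩)
    have h2 : (∑ h ∈ Icc 1 M, ‖f (s + h) - ∑ r ∈ range R,
        (if u r then gh g (φ r) *
          Complex.exp (-(2 * Real.pi * Complex.I * (((φ r).val : ℝ) / M : ℝ))) else 0) *
        Complex.exp (2 * Real.pi * Complex.I * ((((φ r).val : ℝ) / M : ℝ) * h))‖ ^ 2) =
        ∑ x : ZMod M, ‖g x - ∑ ξ ∈ E, gh g ξ * ZMod.stdAddChar (ξ * x)‖ ^ 2 := by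
      rw [sum_Icc_zmod M (fun h => ‖f (s + h) - ∑ r ∈ range R,
        (if u r then gh g (φ r) *
          Complex.exp (-(2 * Real.pi * Complex.I * (((φ r).val : ℝ) / M : ℝ))) else 0) *
        Complex.exp (2 * Real.pi * Complex.I * ((((φ r).val : ℝ) / M : ℝ) * h))‖ ^ 2)]
      apply sum_congr rfl
      intro x _
      rw [henum (fun ξ => gh g ξ * ZMod.stdAddChar (ξ * x))]
      congr 3
      · rw [hg]
        dsimp only
        congr 1
        omega
      · apply sum_congr rfl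
        intro r _
        split_ifs with h3
        · rw [chi_exp]
          ring
        · rw [zero_mul]
    rw [h2]
    refine h1.trans ?_
    rw [← mul_add]
    apply mul_le_mul_of_nonneg_left _ (by norm_num)
    have h4 : ∀ q ∈ S, (∑ x : ZMod M,
        ‖∑ h ∈ range (H + 1), v q h * g (x + ((q * h : ℕ) : ZMod M))‖ ^ 2) / M ≤
        (∑ x ∈ range M, ‖∑ h ∈ range (H + 1), v q h * f (s + 1 + x + q * h)‖ ^ 2) / M +
          ((H : ℝ) + 1) * A / M := fun q hqS =>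
      cyc_le M H A f (s + 1) (v q) q hf (hv q) (hq q hqS)
    calc (∑ q ∈ S, (∑ x : ZMod M,
        ‖∑ h ∈ range (H + 1), v q h * g (x + ((q * h : ℕ) : ZMod M))‖ ^ 2) / M) / S.card ≤
        (∑ q ∈ S, ((∑ x ∈ range M,
          ‖∑ h ∈ range (H + 1), v q h * f (s + 1 + x + q * h)‖ ^ 2) / M +
          ((H : ℝ) + 1) * A / M)) / S.card :=
          div_le_div_of_nonneg_right (sum_le_sum h4) hS0.le
      _ = _ := by
          rw [sum_add_distrib, sum_const, nsmul_eq_mul, add_div, mul_div_cancel_left₀ _ hS0.ne']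

/-- RZF. -/
theorem pf_RZF : Pool.Agent.H87.QP.T_RZF := by
  intro H τ hτ
  obtain ⟨C, hC, m₁, hcard⟩ := card_EA
  obtain ⟨κ, m₂, hκ, hp⟩ := pf_PIL
  -- the parameters
  obtain ⟨B, hB⟩ : ∃ B : ℕ, 8 * ((H : ℝ) + 1) * H / τ + 2 * ((H : ℝ) + 1) + 1 ≤ B :=
    exists_nat_ge _
  set σ : ℝ := 1 / (8 * ((H : ℝ) + 1) ^ 2) with hσ
  have hσ0 : 0 < σ := by positivity
  have hσ1 : 8 * ((H : ℝ) + 1) ^ 2 * σ ≤ 1 := by
    rw [hσ]
    apply le_of_eq
    field_simp
  obtain ⟨R, hR⟩ : ∃ R : ℕ, ((H : ℝ) + 1) ^ 2 * (2 * (C * B / σ ^ 4)) ≤ R := exists_nat_ge _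
  obtain ⟨m₃, hm₃⟩ : ∃ m₃ : ℕ, 4 * ((H : ℝ) + 1) * B / τ ≤ m₃ := exists_nat_ge _
  have hτB : 0 ≤ 8 * ((H : ℝ) + 1) * H / τ := by positivity
  have hB1 : 1 ≤ B := by
    have : (1 : ℝ) ≤ B := by
      have : (0 : ℝ) ≤ H := Nat.cast_nonneg _
      linarith
    exact_mod_cast this
  have hB0 : (0 : ℝ) < B := by exact_mod_cast hB1
  refine ⟨R, B, max (max m₁ m₂) (max m₃ 1), hB1, ?_⟩
  intro m w hm hw f hf c hc n
  have hm1 : m₁ ≤ m := le_trans (le_trans (le_max_left _ _) (le_max_left _ _)) hm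
  have hm2 : m₂ ≤ m := le_trans (le_trans (le_max_right _ _) (le_max_left _ _)) hm
  have hm3 : m₃ ≤ m := le_trans (le_trans (le_max_left _ _) (le_max_right _ _)) hm
  have hm4 : 1 ≤ m := le_trans (le_trans (le_max_right _ _) (le_max_right _ _)) hm
  set M := B * 2 ^ m with hM
  have hMpos : 0 < M := Nat.mul_pos hB1 (by positivity)
  have : NeZero M := ⟨hMpos.ne'⟩
  have hM0 : (0 : ℝ) < M := by exact_mod_cast hMpos
  have hMr : (M : ℝ) = B * 2 ^ m := by rw [hM]; push_cast; ring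
  have h2m : (0 : ℝ) < 2 ^ m := by positivity
  have h2w : (0 : ℝ) < 2 ^ w := by positivity
  -- the normalised filters
  choose v hv1 hv2 hv3 using fun q => normalise H (c q) (hc q)
  have hS : 0 < (oct m).card := by
    have h1 := hp m hm2
    have hmr : (0 : ℝ) < m := by exact_mod_cast hm4
    have h2 : (0 : ℝ) < (oct m).card := lt_of_lt_of_le (by positivity) h1
    exact_mod_cast h2
  have hS0 : (0 : ℝ) < (oct m).card := by exact_mod_cast hS
  have hq : ∀ q ∈ oct m, q * H ≤ 2 ^ (m + 1) * H := by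
    intro q hq
    unfold oct at hq
    rw [mem_filter, mem_Ioc] at hq
    exact Nat.mul_le_mul_right _ hq.1.2
  have hBN : 2 * (H + 1) < B := by
    have : (2 * ((H : ℝ) + 1)) < B := by linarith
    exact_mod_cast this
  have hEA : (EA M (oct m) v σ H).card ≤ R := by
    have h1 := hcard m M H v σ hm1 (by
      rw [hM]
      calc 2 * 2 ^ m * (H + 1) = (2 * (H + 1)) * 2 ^ m := by ring
        _ < B * 2 ^ m := Nat.mul_lt_mul_of_pos_right hBN (by positivity)) hσ0 hv1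
    have h2 : (M : ℝ) / 2 ^ m = B := by
      rw [hMr, mul_div_assoc, div_self h2m.ne', mul_one]
    rw [h2] at h1
    exact_mod_cast h1.trans hR
  choose b β hb hbd using fun t => start M H (2 ^ (m + 1) * H) R (oct m) f (n + t) v σ hσ0.le hσ1 hf
    hv2 hS hq hEA
  refine ⟨b, β, hb, ?_⟩
  -- the mean over the starts
  have hKb : ∀ q y, ‖∑ h ∈ range (H + 1), v q h * f (y + q * h)‖ ^ 2 ≤ (H : ℝ) + 1 := by
    intro q y
    have h1 : ‖∑ h ∈ range (H + 1), v q h * f (y + q * h)‖ ≤ ∑ h ∈ range (H + 1), ‖v q h‖ * 1 := by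
      refine (norm_sum_le _ _).trans (sum_le_sum fun h _ => ?_)
      rw [norm_mul]
      exact mul_le_mul_of_nonneg_left (hf _) (norm_nonneg _)
    have h2 : (∑ h ∈ range (H + 1), ‖v q h‖ * 1) ^ 2 ≤
        (∑ h ∈ range (H + 1), ‖v q h‖ ^ 2) * ∑ h ∈ range (H + 1), (1 : ℝ) ^ 2 :=
      sum_mul_sq_le_sq_mul_sq _ _ _
    rw [hv2, one_mul] at h2
    calc _ ≤ (∑ h ∈ range (H + 1), ‖v q h‖ * 1) ^ 2 := pow_le_pow_left₀ (norm_nonneg _) h1 2
      _ ≤ _ := h2
      _ = _ := by simp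
  set G : ℕ → ℕ → ℝ := fun q t => ‖∑ h ∈ range (H + 1), v q h * f (n + t + q * h)‖ ^ 2 with hG
  have hG0 : ∀ q t, 0 ≤ G q t := fun q t => by rw [hG]; positivity
  have hG1 : ∀ q t, G q t ≤ (H : ℝ) + 1 := fun q t => hKb q (n + t)
  have hmean : ∀ q, (∑ t ∈ range (2 ^ w), (∑ x ∈ range M,
      ‖∑ h ∈ range (H + 1), v q h * f (n + t + 1 + x + q * h)‖ ^ 2) / M) / 2 ^ w ≤
      (∑ t ∈ range (2 ^ w), G q t) / 2 ^ w + M * ((H : ℝ) + 1) / 2 ^ w := by
    intro q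
    rw [← add_div]
    apply div_le_div_of_nonneg_right _ h2w.le
    rw [← sum_div, div_le_iff₀ hM0, sum_comm]
    have h1 : ∀ x ∈ range M, ∑ t ∈ range (2 ^ w),
        ‖∑ h ∈ range (H + 1), v q h * f (n + t + 1 + x + q * h)‖ ^ 2 ≤
        ∑ t ∈ range (2 ^ w), G q t + M * ((H : ℝ) + 1) := by
      intro x hx
      have h2 := shift_le (G q) ((H : ℝ) + 1) (hG0 q) (hG1 q) (2 ^ w) (x + 1)
      have h3 : ∀ t ∈ range (2 ^ w), ‖∑ h ∈ range (H + 1),
          v q h * f (n + t + 1 + x + q * h)‖ ^ 2 = G q (x + 1 + t) := by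
        intro t _
        rw [hG]
        dsimp only
        congr 2
        apply sum_congr rfl
        intro h _
        congr 2
        omega
      rw [sum_congr rfl h3]
      refine h2.trans ?_
      have h4 : ((x + 1 : ℕ) : ℝ) ≤ M := by
        have := mem_range.1 hx
        exact_mod_cast this
      have h5 : (0 : ℝ) ≤ (H : ℝ) + 1 := by positivity
      have h6 := mul_le_mul_of_nonneg_right h4 h5
      linarith
    refine (sum_le_sum h1).trans (le_of_eq ?_)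
    rw [sum_const, card_range, nsmul_eq_mul]
    ring
  have key : (∑ t ∈ range (2 ^ w), (∑ h ∈ Icc 1 M, ‖f (n + t + h) - ∑ r ∈ range R,
      b t r * Complex.exp (2 * Real.pi * Complex.I * (β t r * h))‖ ^ 2) / (M : ℝ)) / 2 ^ w ≤
      2 * ((∑ q ∈ oct m, ((∑ t ∈ range (2 ^ w), G q t) / 2 ^ w +
        M * ((H : ℝ) + 1) / 2 ^ w)) / (oct m).card) +
        2 * (((H : ℝ) + 1) * ((2 ^ (m + 1) * H : ℕ) : ℝ) / M) := by
    have h1 := sum_le_sum (s := range (2 ^ w)) fun t _ => hbd t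
    have h2 : (∑ t ∈ range (2 ^ w), (∑ h ∈ Icc 1 M, ‖f (n + t + h) - ∑ r ∈ range R,
        b t r * Complex.exp (2 * Real.pi * Complex.I * (β t r * h))‖ ^ 2) / (M : ℝ)) / 2 ^ w ≤
        (∑ t ∈ range (2 ^ w), (2 * ((∑ q ∈ oct m, (∑ x ∈ range M,
        ‖∑ h ∈ range (H + 1), v q h * f (n + t + 1 + x + q * h)‖ ^ 2) / M) / (oct m).card) +
        2 * (((H : ℝ) + 1) * ((2 ^ (m + 1) * H : ℕ) : ℝ) / M))) / 2 ^ w :=
      div_le_div_of_nonneg_right h1 h2w.le
    refine h2.trans ?_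
    have h3 : (∑ t ∈ range (2 ^ w), (2 * ((∑ q ∈ oct m, (∑ x ∈ range M,
        ‖∑ h ∈ range (H + 1), v q h * f (n + t + 1 + x + q * h)‖ ^ 2) / M) / (oct m).card) +
        2 * (((H : ℝ) + 1) * ((2 ^ (m + 1) * H : ℕ) : ℝ) / M))) / 2 ^ w =
        2 * ((∑ q ∈ oct m, (∑ t ∈ range (2 ^ w), (∑ x ∈ range M,
          ‖∑ h ∈ range (H + 1), v q h * f (n + t + 1 + x + q * h)‖ ^ 2) / M) / 2 ^ w) /
            (oct m).card) +
        2 * (((H : ℝ) + 1) * ((2 ^ (m + 1) * H : ℕ) : ℝ) / M) := by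
      rw [sum_add_distrib, ← mul_sum, ← sum_div, sum_comm, sum_const, card_range, nsmul_eq_mul,
        add_div]
      congr 1
      · rw [← sum_div]
        ring
      · rw [Nat.cast_pow, Nat.cast_ofNat, mul_comm ((2 : ℝ) ^ w), mul_div_assoc,
          div_self h2w.ne', mul_one]
    rw [h3]
    gcongr with q hq
    exact hmean q
  have hfin : 2 * ((∑ q ∈ oct m, ((∑ t ∈ range (2 ^ w), G q t) / 2 ^ w +
        M * ((H : ℝ) + 1) / 2 ^ w)) / (oct m).card) +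
        2 * (((H : ℝ) + 1) * ((2 ^ (m + 1) * H : ℕ) : ℝ) / M) ≤
      2 * ((∑ q ∈ oct m, (∑ t ∈ range (2 ^ w), ‖∑ h ∈ range (H + 1),
        c q h * f (n + t + q * h)‖ ^ 2) / 2 ^ w) / (oct m).card) + τ := by
    have h1 : (∑ q ∈ oct m, ((∑ t ∈ range (2 ^ w), G q t) / 2 ^ w +
        M * ((H : ℝ) + 1) / 2 ^ w)) / (oct m).card =
        (∑ q ∈ oct m, (∑ t ∈ range (2 ^ w), G q t) / 2 ^ w) / (oct m).card +
          M * ((H : ℝ) + 1) / 2 ^ w := by
      rw [sum_add_distrib, sum_const, nsmul_eq_mul, add_div, mul_div_cancel_left₀ _ hS0.ne']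
    have h2 : (∑ q ∈ oct m, (∑ t ∈ range (2 ^ w), G q t) / 2 ^ w) / (oct m).card ≤
        (∑ q ∈ oct m, (∑ t ∈ range (2 ^ w), ‖∑ h ∈ range (H + 1),
        c q h * f (n + t + q * h)‖ ^ 2) / 2 ^ w) / (oct m).card := by
      gcongr with q hq t ht
      exact hv3 q (fun h => f (n + t + q * h))
    have h3 : 2 * (M * ((H : ℝ) + 1) / 2 ^ w) ≤ τ / 2 := by
      have h4 : (2 : ℝ) ^ (2 * m) ≤ 2 ^ w := pow_le_pow_right₀ (by norm_num) hw
      have h5 : (M : ℝ) * ((H : ℝ) + 1) / 2 ^ w ≤ M * ((H : ℝ) + 1) / 2 ^ (2 * m) :=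
        div_le_div_of_nonneg_left (by positivity) (by positivity) h4
      have h6 : (M : ℝ) * ((H : ℝ) + 1) / 2 ^ (2 * m) = B * ((H : ℝ) + 1) / 2 ^ m := by
        rw [hMr, two_mul, pow_add]
        field_simp
      have h7 : (m : ℝ) ≤ 2 ^ m := by exact_mod_cast Nat.lt_two_pow_self.le
      have h8 : 4 * ((H : ℝ) + 1) * B / τ ≤ 2 ^ m := by
        have : (m₃ : ℝ) ≤ m := by exact_mod_cast hm3
        linarith
      have h9 : B * ((H : ℝ) + 1) / 2 ^ m ≤ τ / 4 := by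
        rw [div_le_iff₀ hτ] at h8
        rw [div_le_iff₀ h2m]
        linarith
      linarith
    have h10 : 2 * (((H : ℝ) + 1) * ((2 ^ (m + 1) * H : ℕ) : ℝ) / M) ≤ τ / 2 := by
      have h11 : ((H : ℝ) + 1) * ((2 ^ (m + 1) * H : ℕ) : ℝ) / M =
          2 * (((H : ℝ) + 1) * H / B) := by
        rw [hMr]
        push_cast
        rw [pow_succ]
        field_simp
      rw [h11]
      have h12 : 8 * ((H : ℝ) + 1) * H / τ ≤ B := by
        have : (0 : ℝ) ≤ H := Nat.cast_nonneg _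
        linarith
      rw [div_le_iff₀ hτ] at h12
      have h13 : ((H : ℝ) + 1) * H / B ≤ τ / 8 := by
        rw [div_le_iff₀ hB0]
        linarith
      linarith
    rw [h1]
    linarith
  have hden : ((B : ℝ) * 2 ^ m) = (M : ℝ) := hMr.symm
  rw [hden]
  exact key.trans hfin

end Pool.Agent.H93.RZ
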