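import Pool.Agent.H93.RZ.Four
import Pool.Agent.H93.DE.PIL

/-!
The exceptional frequencies of the filters at the multiples of the primes of an octave
(MP_c59857_nt).
-/

set_option autoImplicit false

namespace Pool.Agent.H93.RZ

open Finset Pool.Agent.H6.N4D Pool.Agent.H56.QP Pool.Agent.H93.DE

/-- the square of the norm of a sum -/
lemma norm_sq_sum (z : ℕ → ℂ) (n : ℕ) :
    ‖∑ h ∈ range n, z h‖ ^ 2 = ∑ h ∈ range n, ‖z h‖ ^ 2 +
      2 * ∑ h ∈ range n, ∑ h' ∈ range h, (z h * (starRingEnd ℂ) (z h')).re := by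
  induction n with
  | zero => simp
  | succ n ih =>
    rw [sum_range_succ, sum_range_succ, sum_range_succ]
    have h1 : ‖∑ h ∈ range n, z h + z n‖ ^ 2 = ‖∑ h ∈ range n, z h‖ ^ 2 + ‖z n‖ ^ 2 +
        2 * (z n * (starRingEnd ℂ) (∑ h ∈ range n, z h)).re := by
      rw [← Complex.normSq_eq_norm_sq, Complex.normSq_add, Complex.normSq_eq_norm_sq,
        Complex.normSq_eq_norm_sq]
      have h2 : (∑ h ∈ range n, z h * (starRingEnd ℂ) (z n)).re =
          (z n * (starRingEnd ℂ) (∑ h ∈ range n, z h)).re := by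
        rw [← sum_mul, ← Complex.conj_re, map_mul, Complex.conj_conj, mul_comm]
      rw [← h2, sum_mul]
    have h3 : (z n * (starRingEnd ℂ) (∑ h ∈ range n, z h)).re =
        ∑ h' ∈ range n, (z n * (starRingEnd ℂ) (z h')).re := by
      rw [map_sum, mul_sum, Complex.re_sum]
    rw [h1, ih, h3]
    ring

section
variable {M : ℕ} [NeZero M]

lemma chi_eq (ξ : ZMod M) (q k : ℕ) : (ZMod.stdAddChar (ξ * ((q * k : ℕ) : ZMod M)) : ℂ) =
    ee ((((q : ℤ) * k : ℤ) : ℝ) * (ξ.val : ℝ) / M) := by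
  have h1 : ξ * ((q * k : ℕ) : ZMod M) = ((((ξ.val * (q * k) : ℕ) : ℤ)) : ZMod M) := by
    push_cast
    rw [ZMod.natCast_zmod_val]
  rw [h1, ZMod.stdAddChar_coe]
  unfold ee
  congr 1
  push_cast
  ring

/-- the coefficients of the pair `h, h'` -/
noncomputable def cf (c : ℕ → ℕ → ℂ) (h h' : ℕ) (q : ℕ) : ℂ := c q h * (starRingEnd ℂ) (c q h')

/-- the exceptional set of a pair -/
noncomputable def EX (M : ℕ) (S : Finset ℕ) (c : ℕ → ℕ → ℂ) (s : ℝ) (h h' : ℕ) : Finset ℕ :=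
  (range M).filter (fun ξ => s ^ 2 * (S.card : ℝ) ^ 2 ≤
    ‖PP S (fun q => (cf c h h' q).re) (h - h') M ξ‖ ^ 2) ∪
  (range M).filter (fun ξ => s ^ 2 * (S.card : ℝ) ^ 2 ≤
    ‖PP S (fun q => (cf c h h' q).im) (h - h') M ξ‖ ^ 2)

/-- the exceptional set -/
noncomputable def EA (M : ℕ) (S : Finset ℕ) (c : ℕ → ℕ → ℂ) (s : ℝ) (H : ℕ) : Finset ℕ :=
  (range (H + 1)).biUnion fun h => (range h).biUnion fun h' => EX M S c s h h'

/-- a pair of shifts off the exceptional set -/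
lemma pair_le (S : Finset ℕ) (c : ℕ → ℕ → ℂ) (s : ℝ) (hs : 0 ≤ s) (h h' : ℕ) (ξ : ZMod M)
    (hh : h' < h) (hξ : ξ.val ∉ EX M S c s h h') :
    ‖∑ q ∈ S, (c q h * ZMod.stdAddChar (ξ * ((q * h : ℕ) : ZMod M))) *
      (starRingEnd ℂ) (c q h' * ZMod.stdAddChar (ξ * ((q * h' : ℕ) : ZMod M)))‖ ≤
      2 * s * S.card := by
  have h1 : ∀ q ∈ S, (c q h * ZMod.stdAddChar (ξ * ((q * h : ℕ) : ZMod M))) *
      (starRingEnd ℂ) (c q h' * ZMod.stdAddChar (ξ * ((q * h' : ℕ) : ZMod M))) =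
      (((cf c h h' q).re : ℝ) : ℂ) *
        ee ((((q : ℤ) * ((h - h' : ℕ) : ℤ) : ℤ) : ℝ) * (ξ.val : ℝ) / M) +
      Complex.I * ((((cf c h h' q).im : ℝ) : ℂ) *
        ee ((((q : ℤ) * ((h - h' : ℕ) : ℤ) : ℤ) : ℝ) * (ξ.val : ℝ) / M)) := by
    intro q _
    rw [map_mul (starRingEnd ℂ), chi_eq, chi_eq, Pool.Agent.H6.GS2.conj_ee]
    have e1 : c q h * ee ((((q : ℤ) * (h : ℤ) : ℤ) : ℝ) * (ξ.val : ℝ) / M) *
        ((starRingEnd ℂ) (c q h') * ee (-((((q : ℤ) * (h' : ℤ) : ℤ) : ℝ) * (ξ.val : ℝ) / M))) =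
        cf c h h' q * (ee ((((q : ℤ) * (h : ℤ) : ℤ) : ℝ) * (ξ.val : ℝ) / M) *
          ee (-((((q : ℤ) * (h' : ℤ) : ℤ) : ℝ) * (ξ.val : ℝ) / M))) := by
      unfold cf
      ring
    rw [e1, ← ee_add]
    have e2 : (((q : ℤ) * (h : ℤ) : ℤ) : ℝ) * (ξ.val : ℝ) / M +
        -((((q : ℤ) * (h' : ℤ) : ℤ) : ℝ) * (ξ.val : ℝ) / M) =
        (((q : ℤ) * ((h - h' : ℕ) : ℤ) : ℤ) : ℝ) * (ξ.val : ℝ) / M := by
      push_cast [Nat.cast_sub hh.le]
      ring
    rw [e2]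
    conv_lhs => rw [← Complex.re_add_im (cf c h h' q)]
    ring
  rw [sum_congr rfl h1, sum_add_distrib, ← mul_sum]
  have h2 : ‖PP S (fun q => (cf c h h' q).re) (h - h') M ξ.val‖ ≤ s * S.card := by
    by_contra h3
    push Not at h3
    apply hξ
    unfold EX
    rw [mem_union]
    left
    rw [mem_filter]
    refine ⟨mem_range.2 (ZMod.val_lt ξ), ?_⟩
    rw [← mul_pow]
    exact pow_le_pow_left₀ (by positivity) h3.le 2
  have h3 : ‖PP S (fun q => (cf c h h' q).im) (h - h') M ξ.val‖ ≤ s * S.card := by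
    by_contra h3
    push Not at h3
    apply hξ
    unfold EX
    rw [mem_union]
    right
    rw [mem_filter]
    refine ⟨mem_range.2 (ZMod.val_lt ξ), ?_⟩
    rw [← mul_pow]
    exact pow_le_pow_left₀ (by positivity) h3.le 2
  unfold Pool.Agent.H56.QP.PP at h2 h3
  refine (norm_add_le _ _).trans ?_
  rw [norm_mul, Complex.norm_I, one_mul]
  calc _ ≤ s * S.card + s * S.card := add_le_add h2 h3
    _ = _ := by ring

/-- lower bound off the exceptional set -/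
lemma off (S : Finset ℕ) (c : ℕ → ℕ → ℂ) (s : ℝ) (hs : 0 ≤ s) (H : ℕ) (ξ : ZMod M)
    (hc : ∀ q, 1 ≤ ∑ h ∈ range (H + 1), ‖c q h‖ ^ 2) (hξ : ξ.val ∉ EA M S c s H) :
    (1 - 4 * ((H : ℝ) + 1) ^ 2 * s) * S.card ≤
      ∑ q ∈ S, ‖∑ h ∈ range (H + 1), c q h * ZMod.stdAddChar (ξ * ((q * h : ℕ) : ZMod M))‖ ^ 2 := by
  have h1 : ∀ q ∈ S, ‖∑ h ∈ range (H + 1),
      c q h * ZMod.stdAddChar (ξ * ((q * h : ℕ) : ZMod M))‖ ^ 2 =
      ∑ h ∈ range (H + 1), ‖c q h‖ ^ 2 + 2 * ∑ h ∈ range (H + 1), ∑ h' ∈ range h,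
        ((c q h * ZMod.stdAddChar (ξ * ((q * h : ℕ) : ZMod M))) *
        (starRingEnd ℂ) (c q h' * ZMod.stdAddChar (ξ * ((q * h' : ℕ) : ZMod M)))).re := by
    intro q _
    rw [norm_sq_sum]
    congr 1
    apply sum_congr rfl
    intro h _
    rw [norm_mul, norm_chi, mul_one]
  rw [sum_congr rfl h1, sum_add_distrib, ← mul_sum]
  have hsw : ∑ q ∈ S, ∑ h ∈ range (H + 1), ∑ h' ∈ range h,
        ((c q h * ZMod.stdAddChar (ξ * ((q * h : ℕ) : ZMod M))) *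
        (starRingEnd ℂ) (c q h' * ZMod.stdAddChar (ξ * ((q * h' : ℕ) : ZMod M)))).re =
      ∑ h ∈ range (H + 1), ∑ q ∈ S, ∑ h' ∈ range h,
        ((c q h * ZMod.stdAddChar (ξ * ((q * h : ℕ) : ZMod M))) *
        (starRingEnd ℂ) (c q h' * ZMod.stdAddChar (ξ * ((q * h' : ℕ) : ZMod M)))).re := sum_comm
  rw [hsw]
  have h2 : (S.card : ℝ) ≤ ∑ q ∈ S, ∑ h ∈ range (H + 1), ‖c q h‖ ^ 2 := by
    calc (S.card : ℝ) = ∑ q ∈ S, (1 : ℝ) := by simp
      _ ≤ _ := sum_le_sum fun q _ => hc q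
  have h3 : ∀ h ∈ range (H + 1), -(((H : ℝ) + 1) * (2 * s * S.card)) ≤
      ∑ q ∈ S, ∑ h' ∈ range h,
        ((c q h * ZMod.stdAddChar (ξ * ((q * h : ℕ) : ZMod M))) *
        (starRingEnd ℂ) (c q h' * ZMod.stdAddChar (ξ * ((q * h' : ℕ) : ZMod M)))).re := by
    intro h hh
    rw [sum_comm]
    have h4 : ∀ h' ∈ range h, -(2 * s * S.card) ≤ ∑ q ∈ S,
        ((c q h * ZMod.stdAddChar (ξ * ((q * h : ℕ) : ZMod M))) *
        (starRingEnd ℂ) (c q h' * ZMod.stdAddChar (ξ * ((q * h' : ℕ) : ZMod M)))).re := by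
      intro h' hh'
      rw [← Complex.re_sum]
      have h5 : ξ.val ∉ EX M S c s h h' := by
        intro h6
        apply hξ
        unfold EA
        rw [mem_biUnion]
        refine ⟨h, hh, ?_⟩
        rw [mem_biUnion]
        exact ⟨h', hh', h6⟩
      have h6 := pair_le S c s hs h h' ξ (mem_range.1 hh') h5
      exact neg_le_of_abs_le ((Complex.abs_re_le_norm _).trans h6)
    refine le_trans ?_ (sum_le_sum h4)
    rw [sum_const, card_range, nsmul_eq_mul, mul_neg]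
    apply neg_le_neg
    apply mul_le_mul_of_nonneg_right _ (by positivity)
    have : h ≤ H + 1 := by have := mem_range.1 hh; omega
    exact_mod_cast this
  have h7 := sum_le_sum h3
  have hcast : ((H + 1 : ℕ) : ℝ) = (H : ℝ) + 1 := by push_cast; ring
  rw [sum_const, card_range, nsmul_eq_mul, mul_neg, hcast] at h7
  have h8 : (1 - 4 * ((H : ℝ) + 1) ^ 2 * s) * S.card =
      S.card + 2 * -(((H : ℝ) + 1) * (((H : ℝ) + 1) * (2 * s * S.card))) := by ring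
  rw [h8]
  exact add_le_add h2 (mul_le_mul_of_nonneg_left h7 (by norm_num))

end

/-- the number of the exceptional frequencies -/
theorem card_EA : ∃ C : ℝ, 0 < C ∧ ∃ m₀ : ℕ, ∀ (m M H : ℕ) (c : ℕ → ℕ → ℂ) (s : ℝ), m₀ ≤ m →
    2 * 2 ^ m * (H + 1) < M → 0 < s → (∀ q h, ‖c q h‖ ≤ 1) →
    ((EA M (oct m) c s H).card : ℝ) ≤ ((H : ℝ) + 1) ^ 2 * (2 * (C * (M / 2 ^ m) / s ^ 4)) := by
  obtain ⟨C, hC, hf⟩ := few
  obtain ⟨κ, m₀, hκ, hp⟩ := pf_PIL
  refine ⟨C / κ ^ 4, by positivity, max m₀ 1, ?_⟩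
  intro m M H c s hm hM hs hc
  have hm1 : 1 ≤ m := le_trans (le_max_right _ _) hm
  have hm0 := hp m (le_trans (le_max_left _ _) hm)
  have hmr : (0 : ℝ) < m := by exact_mod_cast hm1
  have hcard : (0 : ℝ) < (oct m).card := lt_of_lt_of_le (by positivity) hm0
  have hM0 : (0 : ℝ) ≤ M := Nat.cast_nonneg _
  -- one filter
  have one : ∀ (e : ℕ → ℝ) (k : ℕ), 1 ≤ k → k ≤ H → (∀ q, |e q| ≤ 1) →
      (((range M).filter (fun ξ => s ^ 2 * ((oct m).card : ℝ) ^ 2 ≤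
        ‖PP (oct m) e k M ξ‖ ^ 2)).card : ℝ) ≤ C / κ ^ 4 * (M / 2 ^ m) / s ^ 4 := by
    intro e k hk1 hk2 he
    have hkM : 2 * 2 ^ m * k < M := lt_of_le_of_lt (Nat.mul_le_mul_left _ (by omega)) hM
    have h1 := hf m k M (oct m) e (s ^ 2) hm1 hk1 hkM (by positivity) (fun q hq => by
      unfold oct at hq
      rw [mem_filter, mem_Ioc] at hq
      exact ⟨hq.2, hq.1.1.le, hq.1.2⟩) he
    have h2 : ((κ * 2 ^ m / m) ^ 4 : ℝ) ≤ ((oct m).card : ℝ) ^ 4 :=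
      pow_le_pow_left₀ (by positivity) hm0 4
    have h3 : (((range M).filter (fun ξ => s ^ 2 * ((oct m).card : ℝ) ^ 2 ≤
        ‖PP (oct m) e k M ξ‖ ^ 2)).card : ℝ) * ((s ^ 2) ^ 2 * (κ * 2 ^ m / m) ^ 4) ≤
        C * M * ((2 : ℝ) ^ m) ^ 3 / (m : ℝ) ^ 4 := by
      refine le_trans ?_ h1
      gcongr
    rw [← le_div_iff₀ (by positivity)] at h3
    refine h3.trans (le_of_eq ?_)
    field_simp
  -- a pair
  have two : ∀ h ∈ range (H + 1), ∀ h' ∈ range h, ((EX M (oct m) c s h h').card : ℝ) ≤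
      2 * (C / κ ^ 4 * (M / 2 ^ m) / s ^ 4) := by
    intro h hh h' hh'
    have e1 : 1 ≤ h - h' := by have := mem_range.1 hh'; omega
    have e2 : h - h' ≤ H := by have := mem_range.1 hh; omega
    have hcf : ∀ q, ‖cf c h h' q‖ ≤ 1 := by
      intro q
      unfold cf
      rw [norm_mul, RCLike.norm_conj]
      exact mul_le_one₀ (hc _ _) (norm_nonneg _) (hc _ _)
    have h1 := one (fun q => (cf c h h' q).re) (h - h') e1 e2
      (fun q => (Complex.abs_re_le_norm _).trans (hcf q))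
    have h2 := one (fun q => (cf c h h' q).im) (h - h') e1 e2
      (fun q => (Complex.abs_im_le_norm _).trans (hcf q))
    have h3 : ((EX M (oct m) c s h h').card : ℝ) ≤
        (((range M).filter (fun ξ => s ^ 2 * ((oct m).card : ℝ) ^ 2 ≤
          ‖Pool.Agent.H56.QP.PP (oct m) (fun q => (cf c h h' q).re) (h - h') M ξ‖ ^ 2)).card : ℝ) +
        (((range M).filter (fun ξ => s ^ 2 * ((oct m).card : ℝ) ^ 2 ≤
          ‖Pool.Agent.H56.QP.PP (oct m) (fun q => (cf c h h' q).im) (h - h') M ξ‖ ^ 2)).card : ℝ) := by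
      unfold EX
      exact_mod_cast card_union_le _ _
    refine h3.trans ?_
    rw [two_mul]
    exact add_le_add h1 h2
  have hb : 0 ≤ 2 * (C / κ ^ 4 * (M / 2 ^ m) / s ^ 4) := by positivity
  have h4 : ((EA M (oct m) c s H).card : ℝ) ≤ ∑ h ∈ range (H + 1), ∑ h' ∈ range h,
      ((EX M (oct m) c s h h').card : ℝ) := by
    unfold EA
    have h5 : ((range (H + 1)).biUnion fun h => (range h).biUnion fun h' =>
        EX M (oct m) c s h h').card ≤ ∑ h ∈ range (H + 1), ∑ h' ∈ range h,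
        (EX M (oct m) c s h h').card :=
      card_biUnion_le.trans (sum_le_sum fun h _ => card_biUnion_le)
    exact_mod_cast h5
  refine h4.trans ?_
  calc ∑ h ∈ range (H + 1), ∑ h' ∈ range h, ((EX M (oct m) c s h h').card : ℝ) ≤
      ∑ h ∈ range (H + 1), ((H : ℝ) + 1) * (2 * (C / κ ^ 4 * (M / 2 ^ m) / s ^ 4)) := by
        apply sum_le_sum
        intro h hh
        refine (sum_le_sum (two h hh)).trans ?_
        rw [sum_const, card_range, nsmul_eq_mul]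
        apply mul_le_mul_of_nonneg_right _ hb
        have : h ≤ H + 1 := by have := mem_range.1 hh; omega
        exact_mod_cast this
    _ = _ := by
        rw [sum_const, card_range, nsmul_eq_mul]
        push_cast
        ring

end Pool.Agent.H93.RZ
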