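import Pool.Agent.H56.QP.FM
import Pool.Agent.H87.ES.Sieve

/-!
Fourier analysis modulo `M` for the filters at the multiples of the primes of an octave
(MP_c59857_nt, lower bound for the smallest eigenvalue of the local correlation matrices).
-/

set_option autoImplicit false

namespace Pool.Agent.H93.RZ

open Finset Pool.Agent.H6.N4D Pool.Agent.H56.QP

section
variable {M : ℕ} [NeZero M]

/-- the Fourier coefficients -/
noncomputable def gh (g : ZMod M → ℂ) (ξ : ZMod M) : ℂ :=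
  (∑ x, g x * ZMod.stdAddChar (-(ξ * x))) / M

lemma norm_chi (x : ZMod M) : ‖(ZMod.stdAddChar x : ℂ)‖ = 1 := by
  exact Circle.norm_coe _

lemma norm_gh_le (g : ZMod M → ℂ) (hg : ∀ x, ‖g x‖ ≤ 1) (ξ : ZMod M) : ‖gh g ξ‖ ≤ 1 := by
  unfold gh
  rw [norm_div, Complex.norm_natCast]
  have hM : (0 : ℝ) < M := by exact_mod_cast NeZero.pos M
  rw [div_le_one hM]
  refine (norm_sum_le _ _).trans ?_
  calc ∑ x, ‖g x * (ZMod.stdAddChar (-(ξ * x)) : ℂ)‖ ≤ ∑ x : ZMod M, (1 : ℝ) := by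
        apply sum_le_sum
        intro x _
        rw [norm_mul, norm_chi, mul_one]
        exact hg x
    _ = M := by simp [ZMod.card]

/-- inversion -/
lemma inv (g : ZMod M → ℂ) (x : ZMod M) :
    g x = ∑ ξ, gh g ξ * ZMod.stdAddChar (ξ * x) := by
  have hM : (M : ℂ) ≠ 0 := by exact_mod_cast NeZero.ne M
  have h1 : ∀ ξ : ZMod M, gh g ξ * ZMod.stdAddChar (ξ * x) =
      (∑ y, g y * ZMod.stdAddChar (ξ * (x - y))) / M := by
    intro ξ
    unfold gh
    rw [div_mul_eq_mul_div, sum_mul]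
    congr 1
    apply sum_congr rfl
    intro y _
    rw [mul_assoc, ← AddChar.map_add_eq_mul]
    congr 2
    ring
  rw [sum_congr rfl (fun ξ _ => h1 ξ), ← sum_div, sum_comm]
  rw [eq_div_iff hM, Finset.sum_eq_single x]
  · rw [← mul_sum, AddChar.sum_mulShift _ (ZMod.isPrimitive_stdAddChar M), if_pos (sub_self x),
      ZMod.card]
  · intro y _ hy
    rw [← mul_sum, AddChar.sum_mulShift _ (ZMod.isPrimitive_stdAddChar M),
      if_neg (sub_ne_zero.2 (Ne.symm hy)), Nat.cast_zero, mul_zero]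
  · intro h
    exact absurd (mem_univ _) h

/-- Parseval for the filtered function -/
lemma pars_filter (g : ZMod M → ℂ) (H : ℕ) (v : ℕ → ℂ) (q : ℕ) :
    (∑ x : ZMod M, ‖∑ h ∈ range (H + 1), v h * g (x + ((q * h : ℕ) : ZMod M))‖ ^ 2) / M =
      ∑ ξ, ‖gh g ξ‖ ^ 2 *
        ‖∑ h ∈ range (H + 1), v h * ZMod.stdAddChar (ξ * ((q * h : ℕ) : ZMod M))‖ ^ 2 := by
  have hM : (M : ℝ) ≠ 0 := by exact_mod_cast NeZero.ne M
  have h1 : ∀ x : ZMod M, ∑ h ∈ range (H + 1), v h * g (x + ((q * h : ℕ) : ZMod M)) =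
      ∑ ξ, (gh g ξ * ∑ h ∈ range (H + 1), v h *
        ZMod.stdAddChar (ξ * ((q * h : ℕ) : ZMod M))) * ZMod.stdAddChar (ξ * x) := by
    intro x
    have h2 : ∀ h ∈ range (H + 1), v h * g (x + ((q * h : ℕ) : ZMod M)) =
        ∑ ξ, v h * (gh g ξ * (ZMod.stdAddChar (ξ * ((q * h : ℕ) : ZMod M)) *
          ZMod.stdAddChar (ξ * x))) := by
      intro h _
      rw [inv g (x + ((q * h : ℕ) : ZMod M)), mul_sum]
      apply sum_congr rfl
      intro ξ _
      rw [← AddChar.map_add_eq_mul]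
      congr 3
      ring
    rw [sum_congr rfl h2, sum_comm]
    apply sum_congr rfl
    intro ξ _
    rw [mul_sum, sum_mul]
    apply sum_congr rfl
    intro h _
    ring
  rw [sum_congr rfl (fun x _ => by rw [h1 x]), H87.ES.parseval, mul_comm (M : ℝ), mul_div_assoc,
    div_self hM, mul_one]
  apply sum_congr rfl
  intro ξ _
  rw [norm_mul, mul_pow]

/-- Parseval for a partial sum -/
lemma pars_part (g : ZMod M → ℂ) (E : Finset (ZMod M)) :
    (∑ x : ZMod M, ‖g x - ∑ ξ ∈ E, gh g ξ * ZMod.stdAddChar (ξ * x)‖ ^ 2) / M =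
      ∑ ξ ∈ Eᶜ, ‖gh g ξ‖ ^ 2 := by
  classical
  have hM : (M : ℝ) ≠ 0 := by exact_mod_cast NeZero.ne M
  have h1 : ∀ x : ZMod M, g x - ∑ ξ ∈ E, gh g ξ * ZMod.stdAddChar (ξ * x) =
      ∑ ξ, (if ξ ∈ E then 0 else gh g ξ) * ZMod.stdAddChar (ξ * x) := by
    intro x
    rw [inv g x, ← sum_add_sum_compl E, add_sub_cancel_left, ← sum_add_sum_compl E (fun ξ =>
      (if ξ ∈ E then 0 else gh g ξ) * (ZMod.stdAddChar (ξ * x) : ℂ))]
    have e1 : ∑ ξ ∈ E, (if ξ ∈ E then 0 else gh g ξ) * (ZMod.stdAddChar (ξ * x) : ℂ) = 0 := by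
      apply sum_eq_zero
      intro ξ hξ
      rw [if_pos hξ, zero_mul]
    rw [e1, zero_add]
    apply sum_congr rfl
    intro ξ hξ
    rw [if_neg (mem_compl.1 hξ)]
  rw [sum_congr rfl (fun x _ => by rw [h1 x]), H87.ES.parseval, mul_comm (M : ℝ), mul_div_assoc,
    div_self hM, mul_one, ← sum_add_sum_compl E]
  have e1 : ∑ ξ ∈ E, ‖(if ξ ∈ E then 0 else gh g ξ)‖ ^ 2 = 0 := by
    apply sum_eq_zero
    intro ξ hξ
    rw [if_pos hξ]
    simp
  rw [e1, zero_add]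
  apply sum_congr rfl
  intro ξ hξ
  rw [if_neg (mem_compl.1 hξ)]

end

end Pool.Agent.H93.RZ
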